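import Pool.Agent.N577.DT.D

/-!
# Edge colourings with a few forbidden colours on every edge

If every edge has at most `q` forbidden colours, then the edges of a graph of maximum degree `d`
can be coloured with `d + 1 + 1500 q (1 + log (d + 1))` colours so that no edge gets one of its
forbidden colours.
-/

set_option autoImplicit false
set_option linter.unusedSectionVars false

namespace Pool.Agent.U122.CL

open Finset Pool.Agent.H162R2.Sparse Pool.Agent.N577.DT

variable {V : Type} [Fintype V] [DecidableEq V]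

/-- the edges whose colour is forbidden -/
def badF {V : Type} (Γ R : SimpleGraph V) (c : V → V → ℕ) (F : V → V → Finset ℕ)
    (hc : ∀ u v, c u v = c v u) (hF : ∀ u v, F u v = F v u) : SimpleGraph V where
  Adj u v := (Γ \ R).Adj u v ∧ c u v ∈ F u v
  symm := by
    constructor
    rintro u v ⟨h1, h2⟩
    refine ⟨h1.symm, ?_⟩
    rw [hc v u, hF v u]
    exact h2
  loopless := ⟨fun u h => (Γ \ R).loopless.irrefl u h.1⟩

theorem vizing_LC (Γ : SimpleGraph V) (d k : ℕ) (hdeg : ∀ v, dg Γ v ≤ d) (hk : d + 1 ≤ k) :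
    LC Γ (fun _ _ => range k) := by
  classical
  obtain ⟨c, hc1, hc2, hc3⟩ := Pool.Agent.H238R2.HY.vizing Γ d (by
    intro v
    have h1 := hdeg v
    have h2 : Γ.degree v = dg Γ v := by
      rw [← SimpleGraph.card_neighborFinset_eq_degree]
      unfold dg
      congr 1
      ext u
      rw [mem_nb, SimpleGraph.mem_neighborFinset]
    omega)
  refine ⟨c, fun u v _ => hc1 u v, fun u v h => ?_, fun u v w h1 h2 h3 => hc3 u v w h1 h2 h3⟩
  have := hc2 u v h
  rw [mem_range]
  omega

theorem edge_forbid1 (Γ : SimpleGraph V) (d q k : ℕ) (hdeg : ∀ v, dg Γ v ≤ d)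
    (F : V → V → Finset ℕ) (hsym : ∀ u v, F u v = F v u)
    (hF : ∀ u v, Γ.Adj u v → (F u v).card ≤ q) (hq : 1 ≤ q)
    (hk : (d : ℝ) + 1500 * q * (1 + Real.log (d + 1)) ≤ k) :
    LC Γ (fun a b => range k \ F a b) := by
  classical
  set K : ℕ := max (d + 1) 64 with hKd
  have hK64 : 64 ≤ K := le_max_right _ _
  have hKd1 : d + 1 ≤ K := le_max_left _ _
  obtain ⟨c, hc1, hc2, hc3⟩ := Pool.Agent.H238R2.HY.vizing Γ d (by
    intro v
    have h1 := hdeg v
    have h2 : Γ.degree v = dg Γ v := by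
      rw [← SimpleGraph.card_neighborFinset_eq_degree]
      unfold dg
      congr 1
      ext u
      rw [mem_nb, SimpleGraph.mem_neighborFinset]
    omega)
  let y : Fin q → V → V → ℕ := fun i v u => (F v u).toList.getD i 0
  obtain ⟨R, c1, hR, hRc, hcol, hlt, hB⟩ := t_edge V Γ c K q 1 y hK64 hq le_rfl
    (by omega) ⟨hc1, hc3⟩ (fun v => by
      rw [kf_nb]
      have := hdeg v
      unfold dg at this
      omega) (fun u v huv => by
      have := hc2 u v huv
      omega)
  choose B hB1 hB2 using hB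
  set C := badF Γ R c1 F hcol.1 hsym with hC
  have hCB : ∀ v, nb C v ⊆ B v := by
    intro v u hu
    rw [mem_nb] at hu
    by_contra hnot
    have hu1 : (Γ \ R).Adj v u := hu.1
    obtain ⟨α, b, h1, h2, h3, h4⟩ := hB2 v u (by
      rw [kf_nb, mem_nb]
      exact hu1) hnot
    have hadj : Γ.Adj v u := by
      rw [SimpleGraph.sdiff_adj] at hu1
      exact hu1.1
    obtain ⟨j, hj, hjx⟩ := getD_of_mem (F v u) q _ (hF v u hadj) hu.2
    apply h4 ⟨j, hj⟩
    simp only [y]
    rw [hjx]
    exact ⟨h2, h3⟩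
  have hlogK : 0 ≤ Real.log (K : ℝ) := Real.log_natCast_nonneg K
  have hw1 : (1 : ℝ) ≤ q := by exact_mod_cast hq
  set w2 : ℕ := ⌊44 * Real.log K + (8 * q + 120 * q * Real.log K)⌋₊ with hw2
  have hw20 : (0 : ℝ) ≤ 44 * Real.log K + (8 * q + 120 * q * Real.log K) := by positivity
  set Γ2 := R ⊔ C with hΓ2
  have hdeg2 : ∀ v, dg Γ2 v ≤ w2 := by
    intro v
    rw [hw2, Nat.le_floor_iff hw20]
    have h1 : nb Γ2 v ⊆ nb R v ∪ B v := by
      intro u hu
      rw [mem_nb, hΓ2, SimpleGraph.sup_adj] at hu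
      rw [mem_union]
      rcases hu with hu | hu
      · exact Or.inl ((mem_nb R v u).2 hu)
      · exact Or.inr (hCB v ((mem_nb C v u).2 hu))
    have h2 : ((nb Γ2 v).card : ℝ) ≤ (nb R v).card + (B v).card := by
      exact_mod_cast (card_le_card h1).trans (card_union_le _ _)
    have h3 := hRc v
    rw [kf_nb] at h3
    have h4 := hB1 v
    push_cast at h4
    unfold dg
    nlinarith
  have hw2le : (w2 : ℝ) ≤ 44 * Real.log K + (8 * q + 120 * q * Real.log K) :=
    Nat.floor_le hw20
  -- the number of colours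
  have hd0 : (0 : ℝ) ≤ d := by positivity
  have hlogd : 0 ≤ Real.log ((d : ℝ) + 1) := Real.log_nonneg (by linarith)
  have hlogKd : Real.log K ≤ 4.16 + Real.log ((d : ℝ) + 1) := by
    have h1 : (K : ℝ) ≤ 64 * ((d : ℝ) + 1) := by
      have h2 : K ≤ 64 * (d + 1) := by
        rw [hKd]
        apply max_le
        · omega
        · omega
      exact_mod_cast h2
    have h3 : (0 : ℝ) < K := by
      have : (64 : ℝ) ≤ K := by exact_mod_cast hK64
      linarith
    have h4 := Real.log_le_log h3 h1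
    rw [Real.log_mul (by norm_num) (by linarith)] at h4
    have h5 : Real.log 64 ≤ 4.16 := by
      have h6 : (64 : ℝ) = 2 ^ 6 := by norm_num
      rw [h6, Real.log_pow]
      have := Real.log_two_lt_d9
      push_cast
      linarith
    linarith
  have hkK : K + 2 * w2 + q ≤ k := by
    have h1 : (K : ℝ) ≤ d + 64 := by
      have : K ≤ d + 64 := by
        rw [hKd]
        apply max_le
        · omega
        · omega
      exact_mod_cast this
    have h2 : (K : ℝ) + 2 * w2 + q ≤ k := by
      refine le_trans ?_ hk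
      have h3 : (q : ℝ) * Real.log K ≤ q * (4.16 + Real.log ((d : ℝ) + 1)) :=
        mul_le_mul_of_nonneg_left hlogKd (by linarith)
      have h4 : Real.log K ≤ q * (4.16 + Real.log ((d : ℝ) + 1)) := by nlinarith
      have h5 : 0 ≤ (q : ℝ) * Real.log ((d : ℝ) + 1) := by positivity
      nlinarith
    exact_mod_cast h2
  obtain ⟨c2, e1, e2, e3⟩ := greedy_LC (fun a b => Finset.Ico K k \ F a b) (by
    intro a b
    rw [hsym]) _ Γ2 rfl (by
    intro u v huv
    have hadj : Γ.Adj u v := by
      rw [hΓ2, SimpleGraph.sup_adj] at huv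
      rcases huv with h | h
      · exact hR h
      · have h' : (Γ \ R).Adj u v := h.1
        rw [SimpleGraph.sdiff_adj] at h'
        exact h'.1
    have h1 := Finset.le_card_sdiff (F u v) (Finset.Ico K k)
    have h3 := hF u v hadj
    have h5 := hdeg2 u
    have h6 := hdeg2 v
    rw [Nat.card_Ico] at h1
    omega)
  have hold : ∀ u v, Γ.Adj u v → ¬ Γ2.Adj u v → (Γ \ R).Adj u v ∧ c1 u v ∉ F u v ∧
      c1 u v < K := by
    intro u v h1 h2
    have h3 : (Γ \ R).Adj u v := by
      rw [SimpleGraph.sdiff_adj]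
      exact ⟨h1, fun h => h2 (by rw [hΓ2, SimpleGraph.sup_adj]; exact Or.inl h)⟩
    have h4 : ¬ C.Adj u v := fun h => h2 (by rw [hΓ2, SimpleGraph.sup_adj]; exact Or.inr h)
    exact ⟨h3, fun h => h4 ⟨h3, h⟩, hlt u v h3⟩
  have hnew : ∀ u v, Γ2.Adj u v → K ≤ c2 u v ∧ c2 u v < k ∧ c2 u v ∉ F u v := by
    intro u v h
    have h1 := e2 u v h
    rw [Finset.mem_sdiff, Finset.mem_Ico] at h1
    exact ⟨h1.1.1, h1.1.2, h1.2⟩
  refine ⟨fun u v => if Γ2.Adj u v then c2 u v else c1 u v, ?_, ?_, ?_⟩
  · intro u v huv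
    simp only
    by_cases h : Γ2.Adj u v
    · rw [if_pos h, if_pos h.symm]
      exact e1 u v h
    · rw [if_neg h, if_neg (fun h' => h h'.symm)]
      exact hcol.1 u v
  · intro u v huv
    simp only
    rw [Finset.mem_sdiff, Finset.mem_range]
    by_cases h : Γ2.Adj u v
    · rw [if_pos h]
      obtain ⟨_, h2, h3⟩ := hnew u v h
      exact ⟨h2, h3⟩
    · rw [if_neg h]
      obtain ⟨_, h2, h3⟩ := hold u v huv h
      exact ⟨by omega, h2⟩
  · intro u v x huv hux hvx
    simp only
    by_cases h : Γ2.Adj u v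
    · rw [if_pos h]
      obtain ⟨h1, _, _⟩ := hnew u v h
      by_cases h' : Γ2.Adj u x
      · rw [if_pos h']
        exact e3 u v x h h' hvx
      · rw [if_neg h']
        obtain ⟨_, _, h4⟩ := hold u x hux h'
        omega
    · rw [if_neg h]
      obtain ⟨h0, _, h4⟩ := hold u v huv h
      by_cases h' : Γ2.Adj u x
      · rw [if_pos h']
        obtain ⟨h1, _, _⟩ := hnew u x h'
        omega
      · rw [if_neg h']
        obtain ⟨h0', _, _⟩ := hold u x hux h'
        exact hcol.2 u v x h0 h0' hvx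

/-- both cases together -/
theorem edge_forbid (Γ : SimpleGraph V) (d q k : ℕ) (hdeg : ∀ v, dg Γ v ≤ d)
    (F : V → V → Finset ℕ) (hsym : ∀ u v, F u v = F v u)
    (hF : ∀ u v, Γ.Adj u v → (F u v).card ≤ q)
    (hk : (d : ℝ) + 1 + 1500 * q * (1 + Real.log (d + 1)) ≤ k) :
    LC Γ (fun a b => range k \ F a b) := by
  classical
  rcases Nat.eq_zero_or_pos q with rfl | hq
  · have hk' : d + 1 ≤ k := by
      have h1 : (d : ℝ) + 1 ≤ k := by
        refine le_trans (le_of_eq ?_) hk
        simp
      exact_mod_cast h1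
    obtain ⟨c, h1, h2, h3⟩ := vizing_LC Γ d k hdeg hk'
    refine ⟨c, h1, fun u v huv => ?_, h3⟩
    have h4 : F u v = ∅ := by
      have := hF u v huv
      rw [Nat.le_zero, card_eq_zero] at this
      exact this
    have h5 := h2 u v huv
    simp only at h5 ⊢
    rw [h4, sdiff_empty]
    exact h5
  · exact edge_forbid1 Γ d q k hdeg F hsym hF hq (by linarith)

end Pool.Agent.U122.CL
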