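import Pool.Agent.U122.CL.Main

/-!
# Lists that are unions of few intervals
-/

set_option autoImplicit false
set_option linter.unusedSectionVars false

namespace Pool.Agent.U122.CL

open Finset Pool.Agent.H162R2.Sparse Pool.Agent.N577.DT

variable {V : Type} [Fintype V] [DecidableEq V]

/-- the `j`-th block of length `b` -/
def Bl (b j : ℕ) : Finset ℕ := Ico (j * b) ((j + 1) * b)

theorem mem_Bl {b j x : ℕ} (hb : 0 < b) : x ∈ Bl b j ↔ x / b = j := by
  unfold Bl
  rw [mem_Ico, Nat.div_eq_iff hb]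
  constructor
  · rintro ⟨h1, h2⟩
    refine ⟨h1, ?_⟩
    rw [Nat.add_mul, Nat.one_mul] at h2
    omega
  · rintro ⟨h1, h2⟩
    refine ⟨h1, ?_⟩
    rw [Nat.add_mul, Nat.one_mul]
    omega

theorem card_Bl (b j : ℕ) : (Bl b j).card = b := by
  unfold Bl
  rw [Nat.card_Ico, Nat.add_mul, Nat.one_mul]
  omega

/-- the number of colours in a union of `s` intervals -/
theorem card_union_Ico (m s : ℕ) (F : Finset (ℕ × ℕ)) (hF : F.card ≤ s) (S : Finset ℕ)
    (hS : S = F.biUnion (fun p => Ico p.1 p.2)) :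
    S.card ≤ (2 * m + 1) * ((S.image (fun x => x / (2 * m + 1))).filter
      (fun j => Bl (2 * m + 1) j ⊆ S)).card + 2 * m * (2 * s) := by
  classical
  set b := 2 * m + 1 with hb
  have hb0 : 0 < b := by omega
  set T := S.image (fun x => x / b) with hT
  have h1 : S.card = ∑ j ∈ T, (S.filter (fun x => x / b = j)).card :=
    card_eq_sum_card_image _ _
  have h2 : ∑ j ∈ T, (S.filter (fun x => x / b = j)).card ≤
      ∑ j ∈ T, (if Bl b j ⊆ S then b else 2 * m) := by
    refine sum_le_sum fun j _ => ?_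
    have hsub : S.filter (fun x => x / b = j) ⊆ Bl b j := by
      intro x hx
      rw [mem_Bl hb0]
      exact (mem_filter.1 hx).2
    split_ifs with h
    · exact (card_le_card hsub).trans (le_of_eq (card_Bl b j))
    · have h3 : S.filter (fun x => x / b = j) ⊂ Bl b j := by
        refine ⟨hsub, fun h4 => h fun x hx => (mem_filter.1 (h4 hx)).1⟩
      have h4 := card_lt_card h3
      rw [card_Bl] at h4
      omega
  have h2' := Finset.sum_filter_add_sum_filter_not T (fun j => Bl b j ⊆ S)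
    (fun j => if Bl b j ⊆ S then b else 2 * m)
  have h3 : ∑ j ∈ T.filter (fun j => Bl b j ⊆ S), (if Bl b j ⊆ S then b else 2 * m) =
      b * (T.filter (fun j => Bl b j ⊆ S)).card := by
    rw [Finset.sum_congr rfl (g := fun _ => b) (fun j hj => if_pos (mem_filter.1 hj).2),
      sum_const, smul_eq_mul, mul_comm]
  have h4 : ∑ j ∈ T.filter (fun j => ¬ Bl b j ⊆ S), (if Bl b j ⊆ S then b else 2 * m) =
      2 * m * (T.filter (fun j => ¬ Bl b j ⊆ S)).card := by
    rw [Finset.sum_congr rfl (g := fun _ => 2 * m) (fun j hj => if_neg (mem_filter.1 hj).2),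
      sum_const, smul_eq_mul, mul_comm]
  rw [h3, h4] at h2'
  have h5 : (T.filter (fun j => ¬ Bl b j ⊆ S)).card ≤ 2 * s := by
    have h6 : T.filter (fun j => ¬ Bl b j ⊆ S) ⊆
        F.image (fun p => p.1 / b) ∪ F.image (fun p => p.2 / b) := by
      intro j hj
      rw [mem_filter, hT, mem_image] at hj
      obtain ⟨⟨x, hx, hxj⟩, hn⟩ := hj
      obtain ⟨y, hy, hyS⟩ := not_subset.1 hn
      rw [mem_Bl hb0] at hy
      have hx' := hx
      rw [hS, mem_biUnion] at hx'
      obtain ⟨p, hp, hxp⟩ := hx'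
      rw [mem_Ico] at hxp
      have hyp : ¬ (p.1 ≤ y ∧ y < p.2) := by
        intro h
        apply hyS
        rw [hS, mem_biUnion]
        exact ⟨p, hp, mem_Ico.2 h⟩
      rw [mem_union, mem_image, mem_image]
      by_cases hc : p.1 ≤ y
      · right
        refine ⟨p, hp, ?_⟩
        have h7 : p.2 ≤ y := by
          by_contra h
          exact hyp ⟨hc, by omega⟩
        have h8 : p.2 / b ≤ j := by
          rw [← hy]
          exact Nat.div_le_div_right h7
        have h9 : j ≤ p.2 / b := by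
          rw [← hxj]
          exact Nat.div_le_div_right hxp.2.le
        omega
      · left
        refine ⟨p, hp, ?_⟩
        have h8 : p.1 / b ≤ j := by
          rw [← hxj]
          exact Nat.div_le_div_right hxp.1
        have h9 : j ≤ p.1 / b := by
          rw [← hy]
          exact Nat.div_le_div_right (by omega)
        omega
    have h7 := card_le_card h6
    have h8 := card_union_le (F.image (fun p => p.1 / b)) (F.image (fun p => p.2 / b))
    have h9 := card_image_le (s := F) (f := fun p => p.1 / b)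
    have h10 := card_image_le (s := F) (f := fun p => p.2 / b)
    omega
  have h6 := Nat.mul_le_mul_left (2 * m) h5
  omega

/-- the numerical part -/
theorem numeric (D Δ s m l I : ℕ) (hs : 1 ≤ s) (hD : D ≤ Δ)
    (hm : m = ⌈Real.sqrt (2 * s * (Δ + 1)) / (4 * s)⌉₊)
    (hl : (D : ℝ) + 1 + 4 * s + 2 * Real.sqrt (2 * s * (Δ + 1)) ≤ l)
    (hI : l ≤ (2 * m + 1) * I + 2 * m * (2 * s)) : D + 1 ≤ I * m * 2 := by
  by_contra hcon
  have h1 : I * m * 2 ≤ D := by omega
  set S := Real.sqrt (2 * s * (Δ + 1)) with hS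
  have hs' : (1 : ℝ) ≤ s := by exact_mod_cast hs
  have hΔ0 : (0 : ℝ) ≤ Δ := Nat.cast_nonneg _
  have hS0 : 0 < S := Real.sqrt_pos.2 (by positivity)
  have hS2 : S * S = 2 * s * (Δ + 1) := Real.mul_self_sqrt (by positivity)
  have hm1 : S / (4 * s) ≤ m := by
    rw [hm]
    exact Nat.le_ceil _
  have hm2 : (m : ℝ) < S / (4 * s) + 1 := by
    rw [hm]
    exact Nat.ceil_lt_add_one (by positivity)
  have hm3 : S ≤ 4 * s * m := by
    rw [div_le_iff₀ (by positivity)] at hm1
    linarith
  have hm4 : 4 * s * (m : ℝ) ≤ S + 4 * s := by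
    have h2 : 4 * (s : ℝ) * m ≤ 4 * s * (S / (4 * s) + 1) :=
      mul_le_mul_of_nonneg_left hm2.le (by positivity)
    have h3 : 4 * (s : ℝ) * (S / (4 * s) + 1) = S + 4 * s := by
      field_simp
    linarith
  have hD' : (D : ℝ) ≤ Δ := by exact_mod_cast hD
  have h2 : (I : ℝ) * m * 2 ≤ D := by exact_mod_cast h1
  -- `I ≤ S`
  have h3 : (I : ℝ) ≤ S := by
    have h4 : (I : ℝ) * S ≤ S * S := by
      calc (I : ℝ) * S ≤ I * (4 * s * m) := mul_le_mul_of_nonneg_left hm3 (Nat.cast_nonneg _)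
        _ = (I * m * 2) * (2 * s) := by ring
        _ ≤ D * (2 * s) := mul_le_mul_of_nonneg_right h2 (by positivity)
        _ ≤ (Δ + 1) * (2 * s) := mul_le_mul_of_nonneg_right (by linarith) (by positivity)
        _ = S * S := by rw [hS2]; ring
    exact le_of_mul_le_mul_right h4 hS0
  have h4 : (l : ℝ) ≤ (2 * m + 1) * I + 2 * m * (2 * s) := by exact_mod_cast hI
  have h5 : (2 * (m : ℝ) + 1) * I + 2 * m * (2 * s) = I * m * 2 + I + 4 * s * m := by ring
  linarith

theorem intervals_LC (G : SimpleGraph V) (Δ s : ℕ) (hΔ : ∀ v, dg G v ≤ Δ)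
    (L : Sym2 V → Finset ℕ)
    (h : ∀ u v, G.Adj u v →
      (∃ F : Finset (ℕ × ℕ), F.card ≤ s ∧ L s(u, v) = F.biUnion (fun p => Ico p.1 p.2)) ∧
      (dg G u : ℝ) + 1 + 4 * s + 2 * Real.sqrt (2 * s * (Δ + 1)) ≤ (L s(u, v)).card) :
    LC G (fun u v => L s(u, v)) := by
  classical
  by_cases hedge : ∃ u v, G.Adj u v
  swap
  · push Not at hedge
    exact ⟨fun _ _ => 0, fun x y h => absurd h (hedge x y), fun x y h => absurd h (hedge x y),
      fun x y z h => absurd h (hedge x y)⟩
  have hs : 1 ≤ s := by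
    obtain ⟨u, v, huv⟩ := hedge
    obtain ⟨⟨F, hF, hL⟩, hc⟩ := h u v huv
    by_contra hcon
    have h1 : F = ∅ := by
      rw [← card_eq_zero]
      omega
    rw [hL, h1] at hc
    simp only [biUnion_empty, card_empty, Nat.cast_zero] at hc
    have h2 := Real.sqrt_nonneg (2 * (s : ℝ) * (Δ + 1))
    have h3 : (0 : ℝ) ≤ dg G u := Nat.cast_nonneg _
    have h4 : (0 : ℝ) ≤ s := Nat.cast_nonneg _
    linarith
  obtain ⟨m, hm⟩ : ∃ m, m = ⌈Real.sqrt (2 * s * (Δ + 1)) / (4 * s)⌉₊ := ⟨_, rfl⟩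
  have hb0 : 0 < 2 * m + 1 := by omega
  obtain ⟨M, hM⟩ : ∃ M, ∀ e : Sym2 V, ∀ x ∈ L e, x < M := by
    refine ⟨((univ : Finset (Sym2 V)).biUnion L).sup id + 1, fun e x hx => ?_⟩
    have : x ≤ ((univ : Finset (Sym2 V)).biUnion L).sup id :=
      Finset.le_sup (f := id) (mem_biUnion.2 ⟨e, mem_univ _, hx⟩)
    omega
  let P : Fin M → Finset ℕ := fun i => Bl (2 * m + 1) i
  let I : Sym2 V → Finset (Fin M) := fun e => univ.filter (fun i => P i ⊆ L e)
  apply main_LC G Δ 0 hΔ P ?_ I
  · intro u v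
    rw [Sym2.eq_swap]
  · intro u v _
    rw [Nat.le_zero, card_eq_zero, sdiff_eq_empty_iff_subset]
    intro x hx
    obtain ⟨i, hi, hx⟩ := mem_biUnion.1 hx
    exact (mem_filter.1 hi).2 hx
  · intro u v huv
    obtain ⟨⟨F, hF, hL⟩, hc⟩ := h u v huv
    have h1 := card_union_Ico m s F hF _ hL
    set T := ((L s(u, v)).image (fun x => x / (2 * m + 1))).filter
      (fun j => Bl (2 * m + 1) j ⊆ L s(u, v)) with hT
    have h2 : T.card ≤ (I s(u, v)).card := by
      have h3 : T ⊆ (I s(u, v)).image (fun i : Fin M => (i : ℕ)) := by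
        intro j hj
        rw [hT, mem_filter, mem_image] at hj
        obtain ⟨⟨x, hx, hxj⟩, hsub⟩ := hj
        have hjM : j < M := by
          have h4 := hM _ x hx
          have h5 := Nat.div_le_self x (2 * m + 1)
          omega
        rw [mem_image]
        exact ⟨⟨j, hjM⟩, mem_filter.2 ⟨mem_univ _, hsub⟩, rfl⟩
      exact (card_le_card h3).trans card_image_le
    have h3 : (L s(u, v)).card ≤ (2 * m + 1) * (I s(u, v)).card + 2 * m * (2 * s) := by
      have := Nat.mul_le_mul_left (2 * m + 1) h2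
      omega
    have h4 := numeric (dg G u) Δ s m _ _ hs (hΔ u) hm hc h3
    have h5 : ∑ i ∈ I s(u, v), ((P i).card + 1 - cost Δ 0) / 2 = (I s(u, v)).card * m := by
      rw [cost_zero]
      have h6 : ∀ i ∈ I s(u, v), ((P i).card + 1 - 2) / 2 = m := by
        intro i _
        simp only [P]
        rw [card_Bl]
        omega
      rw [sum_congr rfl h6, sum_const, smul_eq_mul]
    rw [h5]
    omega
  · intro i j hij
    rw [disjoint_left]
    intro x hx hx'
    simp only [P] at hx hx'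
    rw [mem_Bl hb0] at hx hx'
    exact hij (Fin.ext (hx.symm.trans hx'))

end Pool.Agent.U122.CL
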