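import Pool.Agent.U122.CL.Tok
import Pool.Agent.U122.CL.Forbid

/-!
# Assembly: list edge colourings for lists that are almost unions of blocks
-/

set_option autoImplicit false
set_option linter.unusedSectionVars false

namespace Pool.Agent.U122.CL

open Finset Pool.Agent.H162R2.Sparse Pool.Agent.N577.DT

variable {V : Type} [Fintype V] [DecidableEq V]

/-- the number of colours lost in every block -/
noncomputable def cost (Δ q : ℕ) : ℕ := 2 + ⌈1500 * (q : ℝ) * (1 + Real.log (Δ + 1))⌉₊

theorem cost_zero (Δ : ℕ) : cost Δ 0 = 2 := by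
  simp [cost]

theorem palette (P : Finset ℕ) : ∃ g : ℕ → ℕ, (∀ j, j < P.card → g j ∈ P) ∧
    ∀ j, j < P.card → ∀ j', j' < P.card → g j = g j' → j = j' := by
  classical
  refine ⟨fun j => if h : j < P.card then ((P.equivFin.symm ⟨j, h⟩ : P) : ℕ) else 0, ?_, ?_⟩
  · intro j hj
    simp only [dif_pos hj]
    exact (P.equivFin.symm ⟨j, hj⟩).2
  · intro j hj j' hj' h
    simp only [dif_pos hj, dif_pos hj'] at h
    have h1 := P.equivFin.symm.injective (Subtype.ext h)
    exact congrArg Fin.val h1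

theorem block_LC (Γ : SimpleGraph V) (d q : ℕ) (P : Finset ℕ) (L : V → V → Finset ℕ)
    (hsym : ∀ u v, L u v = L v u) (hdeg : ∀ v, dg Γ v ≤ d)
    (hmiss : ∀ u v, Γ.Adj u v → (P \ L u v).card ≤ q)
    (hk : (d : ℝ) + 1 + 1500 * q * (1 + Real.log (d + 1)) ≤ P.card) :
    LC Γ (fun a b => P ∩ L a b) := by
  classical
  obtain ⟨g, hg1, hg2⟩ := palette P
  obtain ⟨c, h1, h2, h3⟩ := edge_forbid Γ d q P.card hdeg
    (fun u v => (range P.card).filter (fun j => g j ∉ L u v))
    (fun u v => by rw [hsym u v]) (fun u v huv => by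
      refine le_trans ?_ (hmiss u v huv)
      apply Finset.card_le_card_of_injOn g
      · intro j hj
        rw [mem_coe, mem_filter, mem_range] at hj
        rw [mem_coe, mem_sdiff]
        exact ⟨hg1 j hj.1, hj.2⟩
      · intro j hj j' hj' h
        rw [mem_coe, mem_filter, mem_range] at hj hj'
        exact hg2 j hj.1 j' hj'.1 h) hk
  have h2' : ∀ u v, Γ.Adj u v → c u v < P.card ∧ g (c u v) ∈ L u v := by
    intro u v huv
    have h4 := h2 u v huv
    simp only [mem_sdiff, mem_range, mem_filter, not_and, not_not] at h4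
    exact ⟨h4.1, h4.2 h4.1⟩
  refine ⟨fun u v => g (c u v), ?_, ?_, ?_⟩
  · intro u v huv
    simp only
    rw [h1 u v huv]
  · intro u v huv
    simp only [mem_inter]
    exact ⟨hg1 _ (h2' u v huv).1, (h2' u v huv).2⟩
  · intro u v w huv huw hvw h
    simp only at h
    exact h3 u v w huv huw hvw (hg2 _ (h2' u v huv).1 _ (h2' u w huw).1 h)

variable {ι : Type} [Fintype ι] [DecidableEq ι]

/-- the edges of block `i` -/
def blk {ι : Type} (G : SimpleGraph V) (a : Sym2 V → ι) (i : ι) : SimpleGraph V where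
  Adj u v := G.Adj u v ∧ a s(u, v) = i
  symm := by
    constructor
    rintro u v ⟨h1, h2⟩
    refine ⟨h1.symm, ?_⟩
    rw [Sym2.eq_swap]
    exact h2
  loopless := ⟨fun u h => G.loopless.irrefl u h.1⟩

theorem main_LC (G : SimpleGraph V) (Δ q : ℕ) (hΔ : ∀ v, dg G v ≤ Δ) (P : ι → Finset ℕ)
    (hP : ∀ i j, i ≠ j → Disjoint (P i) (P j)) (I : Sym2 V → Finset ι)
    (L : V → V → Finset ℕ) (hsym : ∀ u v, L u v = L v u)
    (hmiss : ∀ u v, G.Adj u v → ((I s(u, v)).biUnion P \ L u v).card ≤ q)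
    (hsize : ∀ u v, G.Adj u v →
      (dg G u + 1) / 2 ≤ ∑ i ∈ I s(u, v), ((P i).card + 1 - cost Δ q) / 2) :
    LC G L := by
  classical
  by_cases hedge : ∃ u v, G.Adj u v
  swap
  · push Not at hedge
    exact ⟨fun _ _ => 0, fun x y h => absurd h (hedge x y), fun x y h => absurd h (hedge x y),
      fun x y z h => absurd h (hedge x y)⟩
  have hne : Nonempty ι := by
    obtain ⟨u, v, huv⟩ := hedge
    by_contra hcon
    rw [not_nonempty_iff] at hcon
    have h1 := hsize u v huv
    have h2 : I s(u, v) = ∅ := by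
      rw [eq_empty_iff_forall_notMem]
      intro i
      exact hcon.elim i
    rw [h2, sum_empty] at h1
    have h3 : 0 < dg G u := by
      unfold dg
      exact card_pos.2 ⟨v, (mem_nb G u v).2 huv⟩
    omega
  obtain ⟨a, ha1, ha2⟩ := split2 G I (fun i => ((P i).card + 1 - cost Δ q) / 2) hsize
  have hblk : ∀ i, LC (blk G a i) (fun u v => P i ∩ L u v) := by
    intro i
    by_cases hi : 0 < ((P i).card + 1 - cost Δ q) / 2
    · apply block_LC (blk G a i) (min (2 * (((P i).card + 1 - cost Δ q) / 2)) Δ) q (P i) L hsym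
      · intro v
        have h1 : nb (blk G a i) v ⊆ (nb G v).filter (fun u => a s(v, u) = i) := by
          intro u hu
          rw [mem_nb] at hu
          rw [mem_filter, mem_nb]
          exact hu
        have h2 := card_le_card h1
        have h3 := card_le_card (filter_subset (fun u => a s(v, u) = i) (nb G v))
        have h4 := ha2 v i
        have h5 := hΔ v
        unfold dg at h5 ⊢
        exact le_min (h2.trans h4) ((h2.trans h3).trans h5)
      · intro u v huv
        refine le_trans (card_le_card ?_) (hmiss u v huv.1)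
        apply sdiff_subset_sdiff _ (subset_refl _)
        have h1 := (ha1 u v huv.1).1
        rw [huv.2] at h1
        exact subset_biUnion_of_mem P h1
      · set d := min (2 * (((P i).card + 1 - cost Δ q) / 2)) Δ with hd
        have h1 : d ≤ Δ := min_le_right _ _
        have h2 : d + cost Δ q ≤ (P i).card + 1 := by
          have := min_le_left (2 * (((P i).card + 1 - cost Δ q) / 2)) Δ
          omega
        have h3 : (d : ℝ) + cost Δ q ≤ (P i).card + 1 := by exact_mod_cast h2
        have h4 : (2 : ℝ) + 1500 * (q : ℝ) * (1 + Real.log (Δ + 1)) ≤ cost Δ q := by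
          unfold cost
          push_cast
          have := Nat.le_ceil (1500 * (q : ℝ) * (1 + Real.log (Δ + 1)))
          linarith
        have h5 : Real.log ((d : ℝ) + 1) ≤ Real.log ((Δ : ℝ) + 1) := by
          apply Real.log_le_log (by positivity)
          have : (d : ℝ) ≤ Δ := by exact_mod_cast h1
          linarith
        have h6 : 1500 * (q : ℝ) * (1 + Real.log (d + 1)) ≤
            1500 * (q : ℝ) * (1 + Real.log (Δ + 1)) := by
          apply mul_le_mul_of_nonneg_left _ (by positivity)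
          linarith
        linarith
    · have h0 : ∀ u v, ¬ (blk G a i).Adj u v := by
        intro u v huv
        have h1 := (ha1 u v huv.1).2
        rw [huv.2] at h1
        exact hi h1
      exact ⟨fun _ _ => 0, fun x y h => absurd h (h0 x y), fun x y h => absurd h (h0 x y),
        fun x y z h => absurd h (h0 x y)⟩
  choose c hc1 hc2 hc3 using hblk
  refine ⟨fun u v => c (a s(u, v)) u v, ?_, ?_, ?_⟩
  · intro u v huv
    simp only
    rw [Sym2.eq_swap (a := v) (b := u)]
    exact hc1 _ u v ⟨huv, rfl⟩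
  · intro u v huv
    have h1 := hc2 (a s(u, v)) u v ⟨huv, rfl⟩
    exact (mem_inter.1 h1).2
  · intro u v w huv huw hvw
    simp only
    by_cases h : a s(u, v) = a s(u, w)
    · rw [h]
      exact hc3 (a s(u, w)) u v w ⟨huv, h⟩ ⟨huw, rfl⟩ hvw
    · intro heq
      have h1 := (mem_inter.1 (hc2 (a s(u, v)) u v ⟨huv, rfl⟩)).1
      have h2 := (mem_inter.1 (hc2 (a s(u, w)) u w ⟨huw, rfl⟩)).1
      rw [heq] at h1
      exact disjoint_left.1 (hP _ _ h) h1 h2

/-- an element of `S` over `m` -/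
noncomputable def pick (ψ : ℕ → ℕ) (S : Finset ℕ) (m : ℕ) : ℕ := by
  classical exact if h : ∃ x ∈ S, ψ x = m then h.choose else 0

theorem pick_spec (ψ : ℕ → ℕ) (S : Finset ℕ) (m : ℕ) (h : ∃ x ∈ S, ψ x = m) :
    pick ψ S m ∈ S ∧ ψ (pick ψ S m) = m := by
  unfold pick
  rw [dif_pos h]
  exact h.choose_spec

/-- with a precoloured subgraph and merged colours -/
theorem main_pre (G H : SimpleGraph V) (Δ q r : ℕ) (hΔ : ∀ v, dg G v ≤ Δ)
    (hr : ∀ v, dg H v ≤ r) (c0 : V → V → ℕ) (hc0 : ∀ u v, c0 u v = c0 v u)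
    (hprop : ∀ u v w, H.Adj u v → H.Adj u w → v ≠ w → c0 u v ≠ c0 u w) (ψ : ℕ → ℕ)
    (P : ι → Finset ℕ) (hP : ∀ i j, i ≠ j → Disjoint (P i) (P j)) (I : Sym2 V → Finset ι)
    (L : V → V → Finset ℕ) (hsym : ∀ u v, L u v = L v u)
    (hmiss : ∀ u v, G.Adj u v → ¬ H.Adj u v →
      ((I s(u, v)).biUnion P \ (L u v).image ψ).card ≤ q)
    (hsize : ∀ u v, G.Adj u v → ¬ H.Adj u v →
      (dg G u + 1) / 2 ≤ ∑ i ∈ I s(u, v), ((P i).card + 1 - cost Δ (q + 2 * r)) / 2) :
    ∃ c : V → V → ℕ, (∀ u v, G.Adj u v → c u v = c v u) ∧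
      (∀ u v, H.Adj u v → c u v = c0 u v) ∧
      (∀ u v, G.Adj u v → ¬ H.Adj u v → c u v ∈ L u v) ∧
      ∀ u v w, G.Adj u v → G.Adj u w → v ≠ w → c u v ≠ c u w := by
  classical
  let W : V → Finset ℕ := fun v => (nb H v).image (fun u => ψ (c0 v u))
  have hW : ∀ v, (W v).card ≤ r := fun v => card_image_le.trans (hr v)
  have hGH : ∀ u v, (G \ H).Adj u v ↔ G.Adj u v ∧ ¬ H.Adj u v := by
    intro u v
    rw [SimpleGraph.sdiff_adj]
  have hmono : ∀ v, dg (G \ H) v ≤ dg G v := by
    intro v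
    unfold dg
    apply card_le_card
    intro u hu
    rw [mem_nb, hGH] at hu
    exact (mem_nb G v u).2 hu.1
  obtain ⟨c, h1, h2, h3⟩ := main_LC (G \ H) Δ (q + 2 * r) (fun v => (hmono v).trans (hΔ v)) P hP I
    (fun u v => (L u v).image ψ \ (W u ∪ W v)) (fun u v => by rw [hsym u v, union_comm])
    (fun u v huv => by
      rw [hGH] at huv
      have h1 := hmiss u v huv.1 huv.2
      have h2 : (I s(u, v)).biUnion P \ ((L u v).image ψ \ (W u ∪ W v)) ⊆
          ((I s(u, v)).biUnion P \ (L u v).image ψ) ∪ (W u ∪ W v) := by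
        intro x hx
        rw [mem_sdiff, mem_sdiff] at hx
        rw [mem_union, mem_sdiff]
        tauto
      have h3 := card_le_card h2
      have h4 := card_union_le ((I s(u, v)).biUnion P \ (L u v).image ψ) (W u ∪ W v)
      have h5 := card_union_le (W u) (W v)
      have h6 := hW u
      have h7 := hW v
      omega)
    (fun u v huv => by
      rw [hGH] at huv
      have h4 := hsize u v huv.1 huv.2
      have h5 := hmono u
      refine le_trans ?_ h4
      omega)
  have hL : ∀ u v, G.Adj u v → ¬ H.Adj u v → pick ψ (L u v) (c u v) ∈ L u v ∧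
      ψ (pick ψ (L u v) (c u v)) = c u v ∧ c u v ∉ W u := by
    intro u v h4 h5
    have h6 := h2 u v ((hGH u v).2 ⟨h4, h5⟩)
    simp only [mem_sdiff, mem_union, not_or] at h6
    obtain ⟨x, hx1, hx2⟩ := mem_image.1 h6.1
    have h7 := pick_spec ψ (L u v) (c u v) ⟨x, hx1, hx2⟩
    exact ⟨h7.1, h7.2, h6.2.1⟩
  refine ⟨fun u v => if H.Adj u v then c0 u v else pick ψ (L u v) (c u v), ?_, ?_, ?_, ?_⟩
  · intro u v huv
    simp only
    by_cases h : H.Adj u v
    · rw [if_pos h, if_pos h.symm]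
      exact hc0 u v
    · rw [if_neg h, if_neg (fun h' => h h'.symm), h1 u v ((hGH u v).2 ⟨huv, h⟩), hsym u v]
  · intro u v huv
    simp only
    rw [if_pos huv]
  · intro u v huv hn
    simp only
    rw [if_neg hn]
    exact (hL u v huv hn).1
  · intro u v w huv huw hvw
    simp only
    by_cases h : H.Adj u v
    · rw [if_pos h]
      by_cases h' : H.Adj u w
      · rw [if_pos h']
        exact hprop u v w h h' hvw
      · rw [if_neg h']
        intro heq
        obtain ⟨_, k1, k2⟩ := hL u w huw h'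
        apply k2
        rw [← k1, ← heq]
        exact mem_image.2 ⟨v, (mem_nb H u v).2 h, rfl⟩
    · rw [if_neg h]
      by_cases h' : H.Adj u w
      · rw [if_pos h']
        intro heq
        obtain ⟨_, k1, k2⟩ := hL u v huv h
        apply k2
        rw [← k1, heq]
        exact mem_image.2 ⟨w, (mem_nb H u w).2 h', rfl⟩
      · rw [if_neg h']
        intro heq
        apply h3 u v w ((hGH u v).2 ⟨huv, h⟩) ((hGH u w).2 ⟨huw, h'⟩) hvw
        rw [← (hL u v huv h).2.1, ← (hL u w huw h').2.1, heq]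

/-- reference lists from a family of `t` sets -/
theorem main_few (G H : SimpleGraph V) (Δ q r : ℕ) (hΔ : ∀ v, dg G v ≤ Δ)
    (hr : ∀ v, dg H v ≤ r) (c0 : V → V → ℕ) (hc0 : ∀ u v, c0 u v = c0 v u)
    (hprop : ∀ u v w, H.Adj u v → H.Adj u w → v ≠ w → c0 u v ≠ c0 u w) (ψ : ℕ → ℕ)
    (𝓡 : Finset (Finset ℕ)) (R : Sym2 V → Finset ℕ)
    (L : V → V → Finset ℕ) (hsym : ∀ u v, L u v = L v u)
    (hR : ∀ u v, G.Adj u v → ¬ H.Adj u v → R s(u, v) ∈ 𝓡)
    (hmiss : ∀ u v, G.Adj u v → ¬ H.Adj u v → (R s(u, v) \ (L u v).image ψ).card ≤ q)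
    (hsize : ∀ u v, G.Adj u v → ¬ H.Adj u v →
      dg G u + 1 + 2 ^ (𝓡.card - 1) * cost Δ (q + 2 * r) ≤ (R s(u, v)).card) :
    ∃ c : V → V → ℕ, (∀ u v, G.Adj u v → c u v = c v u) ∧
      (∀ u v, H.Adj u v → c u v = c0 u v) ∧
      (∀ u v, G.Adj u v → ¬ H.Adj u v → c u v ∈ L u v) ∧
      ∀ u v w, G.Adj u v → G.Adj u w → v ≠ w → c u v ≠ c u w := by
  classical
  let P : {T // T ∈ 𝓡.powerset} → Finset ℕ := fun T =>
    (𝓡.biUnion id).filter (fun x => 𝓡.filter (fun S => x ∈ S) = T.1)
  let I : Sym2 V → Finset {T // T ∈ 𝓡.powerset} := fun e =>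
    univ.filter (fun T => R e ∈ T.1)
  have hP : ∀ S T, S ≠ T → Disjoint (P S) (P T) := by
    intro S T hST
    rw [disjoint_left]
    intro x hx hx'
    have h1 := (mem_filter.1 hx).2
    have h2 := (mem_filter.1 hx').2
    exact hST (Subtype.ext (h1.symm.trans h2))
  have hU : ∀ u v, G.Adj u v → ¬ H.Adj u v → (I s(u, v)).biUnion P = R s(u, v) := by
    intro u v huv hn
    have hRm := hR u v huv hn
    ext x
    rw [mem_biUnion]
    constructor
    · rintro ⟨T, hT, hx⟩
      have h1 := (mem_filter.1 hT).2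
      have h2 := (mem_filter.1 hx).2
      rw [← h2] at h1
      exact (mem_filter.1 h1).2
    · intro hx
      refine ⟨⟨𝓡.filter (fun S => x ∈ S), mem_powerset.2 (filter_subset _ _)⟩, ?_, ?_⟩
      · exact mem_filter.2 ⟨mem_univ _, mem_filter.2 ⟨hRm, hx⟩⟩
      · exact mem_filter.2 ⟨mem_biUnion.2 ⟨_, hRm, hx⟩, rfl⟩
  have hI : ∀ u v, G.Adj u v → ¬ H.Adj u v → (I s(u, v)).card ≤ 2 ^ (𝓡.card - 1) := by
    intro u v huv hn
    have hRm := hR u v huv hn
    rw [← card_erase_of_mem hRm, ← card_powerset]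
    apply card_le_card_of_injOn (fun T => T.1.erase (R s(u, v)))
    · intro T hT
      rw [mem_coe, mem_powerset]
      exact erase_subset_erase _ (mem_powerset.1 T.2)
    · intro S hS T hT h
      have h1 := (mem_filter.1 (mem_coe.1 hS)).2
      have h2 := (mem_filter.1 (mem_coe.1 hT)).2
      simp only at h
      apply Subtype.ext
      rw [← insert_erase h1, ← insert_erase h2, h]
  refine main_pre G H Δ q r hΔ hr c0 hc0 hprop ψ P hP I L hsym ?_ ?_
  · intro u v huv hn
    rw [hU u v huv hn]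
    exact hmiss u v huv hn
  · intro u v huv hn
    have h1 := hsize u v huv hn
    have h2 : (R s(u, v)).card = ∑ T ∈ I s(u, v), (P T).card := by
      rw [← hU u v huv hn, card_biUnion]
      intro S _ T _ hST
      exact hP S T hST
    have h3 : ∑ T ∈ I s(u, v), (P T).card ≤ ∑ T ∈ I s(u, v),
        (((P T).card + 1 - cost Δ (q + 2 * r)) / 2 * 2 + cost Δ (q + 2 * r)) :=
      sum_le_sum fun T _ => by omega
    rw [sum_add_distrib, sum_const, smul_eq_mul, ← Finset.sum_mul] at h3
    have h4 := Nat.mul_le_mul_right (cost Δ (q + 2 * r)) (hI u v huv hn)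
    omega

end Pool.Agent.U122.CL
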