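import Pool.Agent.N887.TC_BAL
import Pool.Agent.TH559.LE.Bkw
import Pool.Agent.H162R2.Sparse.Struct

/-!
# Splitting the edges of a graph into blocks with small degrees by tokens

Every edge `e` chooses a block in `I e`, such that the degree of the block `i` is at most
`2 s i` everywhere, if the sum of the `s i` over `I e` is at least half the degrees of the ends of
`e`: a balanced orientation and the theorem of Borodin, Kostochka and Woodall for bipartite graphs.
-/

set_option autoImplicit false
set_option linter.unusedSectionVars false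

namespace Pool.Agent.U122.CL

open Finset Pool.Agent.H162R2.Sparse

variable {V : Type} [Fintype V] [DecidableEq V]

theorem ncard_dg (G : SimpleGraph V) (v : V) : (G.neighborSet v).ncard = dg G v := by
  classical
  unfold dg
  rw [← Set.ncard_coe_finset]
  congr 1
  ext u
  rw [mem_coe, mem_nb, SimpleGraph.mem_neighborSet]

/-- a balanced orientation as a set of arcs -/
theorem arcs (G : SimpleGraph V) : ∃ E : Finset (V × V),
    (∀ u v, (u, v) ∈ E → G.Adj u v) ∧ (∀ u v, G.Adj u v → (u, v) ∈ E ∨ (v, u) ∈ E) ∧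
    (∀ u v, (u, v) ∈ E → (v, u) ∉ E) ∧
    (∀ u, (E.filter (fun f => f.1 = u)).card ≤ (dg G u + 1) / 2) ∧
    ∀ u, (E.filter (fun f => f.2 = u)).card ≤ (dg G u + 1) / 2 := by
  classical
  obtain ⟨y, hy1, hy2, hy3, hy4⟩ := Pool.Agent.N887.TCBAL.bal G
  have hcount : ∀ v, ((nb G v).filter (fun u => y v u = 1)).card ≤ (dg G v + 1) / 2 ∧
      ((nb G v).filter (fun u => ¬ y v u = 1)).card ≤ (dg G v + 1) / 2 := by
    intro v
    have h1 : ((nb G v).filter (fun u => y v u = 1)).card +
        ((nb G v).filter (fun u => ¬ y v u = 1)).card = dg G v := by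
      unfold dg
      exact card_filter_add_card_filter_not (s := nb G v) (fun u => y v u = 1)
    have h2 : ∑ u, y v u = (((nb G v).filter (fun u => y v u = 1)).card : ℤ) -
        ((nb G v).filter (fun u => ¬ y v u = 1)).card := by
      have h3 : ∑ u, y v u = ∑ u ∈ nb G v, y v u := by
        symm
        apply Finset.sum_subset (subset_univ _)
        intro u _ hu
        rw [mem_nb] at hu
        exact hy2 v u hu
      rw [h3, ← Finset.sum_filter_add_sum_filter_not (nb G v) (fun u => y v u = 1)]
      have h4 : ∑ u ∈ (nb G v).filter (fun u => y v u = 1), y v u =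
          (((nb G v).filter (fun u => y v u = 1)).card : ℤ) := by
        rw [Finset.sum_congr rfl (g := fun _ => (1 : ℤ)) (fun u hu => (mem_filter.1 hu).2)]
        simp
      have h5 : ∑ u ∈ (nb G v).filter (fun u => ¬ y v u = 1), y v u =
          -(((nb G v).filter (fun u => ¬ y v u = 1)).card : ℤ) := by
        rw [Finset.sum_congr rfl (g := fun _ => (-1 : ℤ)) (fun u hu => ?_)]
        · simp
        · have h6 := mem_filter.1 hu
          rcases hy3 v u ((mem_nb G v u).1 h6.1) with h7 | h7
          · exact absurd h7 h6.2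
          · exact h7
      rw [h4, h5]
      ring
    have h3 := (hy4 v).2
    rw [h2, abs_le] at h3
    omega
  refine ⟨univ.filter (fun p => G.Adj p.1 p.2 ∧ y p.1 p.2 = 1), ?_, ?_, ?_, ?_, ?_⟩
  · intro u v h
    exact (mem_filter.1 h).2.1
  · intro u v huv
    rcases hy3 u v huv with h | h
    · exact Or.inl (mem_filter.2 ⟨mem_univ _, huv, h⟩)
    · refine Or.inr (mem_filter.2 ⟨mem_univ _, huv.symm, ?_⟩)
      have := hy1 v u
      simp only
      omega
  · intro u v h h'
    have h1 := (mem_filter.1 h).2.2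
    have h2 := (mem_filter.1 h').2.2
    have h3 := hy1 v u
    simp only at h1 h2
    omega
  · intro u
    refine le_trans ?_ (hcount u).1
    apply card_le_card_of_injOn (fun f => f.2)
    · intro f hf
      rw [mem_coe, mem_filter, mem_filter] at hf
      rw [mem_coe, mem_filter, mem_nb, ← hf.2]
      exact hf.1.2
    · intro f hf g hg h
      rw [mem_coe, mem_filter] at hf hg
      exact Prod.ext (hf.2.trans hg.2.symm) h
  · intro u
    refine le_trans ?_ (hcount u).2
    apply card_le_card_of_injOn (fun f => f.1)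
    · intro f hf
      rw [mem_coe, mem_filter, mem_filter] at hf
      rw [mem_coe, mem_filter, mem_nb, ← hf.2]
      refine ⟨hf.1.2.1.symm, ?_⟩
      have h1 := hf.1.2.2
      have h2 := hy1 f.2 f.1
      intro h3
      rw [h3, h1] at h2
      norm_num at h2
    · intro f hf g hg h
      rw [mem_coe, mem_filter] at hf hg
      exact Prod.ext h (hf.2.trans hg.2.symm)

variable {ι : Type} [Fintype ι] [DecidableEq ι]

/-- the `k`-th token of block `i` -/
noncomputable def tok (i : ι) (k : ℕ) : ℕ := Nat.pair (Fintype.equivFin ι i) k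

theorem tok_inj {i j : ι} {k l : ℕ} (h : tok i k = tok j l) : i = j ∧ k = l := by
  unfold tok at h
  rw [Nat.pair_eq_pair] at h
  exact ⟨(Fintype.equivFin ι).injective (Fin.ext h.1), h.2⟩

theorem split2 [Nonempty ι] (G : SimpleGraph V) (I : Sym2 V → Finset ι) (s : ι → ℕ)
    (hs : ∀ u v, G.Adj u v → (dg G u + 1) / 2 ≤ ∑ i ∈ I s(u, v), s i) :
    ∃ a : Sym2 V → ι, (∀ u v, G.Adj u v → a s(u, v) ∈ I s(u, v) ∧ 0 < s (a s(u, v))) ∧
      ∀ v i, ((nb G v).filter (fun u => a s(v, u) = i)).card ≤ 2 * s i := by
  classical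
  obtain ⟨E, hE1, hE2, hE3, hE4, hE5⟩ := arcs G
  let LT : V × V → Finset ℕ := fun p =>
    (I s(p.1, p.2)).biUnion (fun i => (range (s i)).image (tok i))
  have hLT : ∀ p, (LT p).card = ∑ i ∈ I s(p.1, p.2), s i := by
    intro p
    simp only [LT]
    rw [card_biUnion]
    · refine sum_congr rfl fun i _ => ?_
      rw [card_image_of_injective _ (fun k l h => (tok_inj h).2), card_range]
    · intro i _ j _ hij
      simp only [Function.onFun]
      rw [disjoint_left]
      intro x hx hx'
      rw [mem_image] at hx hx'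
      obtain ⟨k, _, h1⟩ := hx
      obtain ⟨l, _, h2⟩ := hx'
      exact hij (tok_inj (h1.trans h2.symm)).1
  obtain ⟨φ, hφ⟩ := Pool.Agent.TH559.LE.bkw E LT (by
    intro e he
    have h1 := hE1 e.1 e.2 he
    rw [hLT]
    have h2 := hs e.1 e.2 h1
    have h3 := hs e.2 e.1 h1.symm
    rw [Sym2.eq_swap] at h3
    have h4 := hE4 e.1
    have h5 := hE5 e.2
    refine max_le ?_ ?_
    · refine le_trans (le_of_eq ?_) (h4.trans h2)
      congr
    · refine le_trans (le_of_eq ?_) (h5.trans h3)
      congr)
  have hex : ∀ e : Sym2 V, ∃ i : ι, ∀ u v, e = s(u, v) → (u, v) ∈ E →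
      i ∈ I e ∧ ∃ k < s i, φ (u, v) = tok i k := by
    intro e
    by_cases h : ∃ u v, e = s(u, v) ∧ (u, v) ∈ E
    · obtain ⟨u0, v0, h1, h2⟩ := h
      have h3 := (hφ (u0, v0) h2).1
      simp only [LT, mem_biUnion, mem_image, mem_range] at h3
      obtain ⟨i, hi, k, hk, h4⟩ := h3
      refine ⟨i, fun u v huv hE => ?_⟩
      have h5 : s(u0, v0) = s(u, v) := h1.symm.trans huv
      rw [Sym2.eq_iff] at h5
      rcases h5 with ⟨rfl, rfl⟩ | ⟨rfl, rfl⟩
      · rw [h1]
        exact ⟨hi, k, hk, h4.symm⟩
      · exact absurd hE (hE3 _ _ h2)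
    · exact ⟨Classical.arbitrary ι, fun u v h1 h2 => absurd ⟨u, v, h1, h2⟩ h⟩
  choose a ha using hex
  refine ⟨a, ?_, ?_⟩
  · intro u v huv
    rcases hE2 u v huv with h | h
    · obtain ⟨h1, k, hk, _⟩ := ha s(u, v) u v rfl h
      exact ⟨h1, by omega⟩
    · obtain ⟨h1, k, hk, _⟩ := ha s(u, v) v u Sym2.eq_swap h
      exact ⟨h1, by omega⟩
  · intro v i
    have hsub : (nb G v).filter (fun u => a s(v, u) = i) ⊆
        univ.filter (fun u => (v, u) ∈ E ∧ a s(v, u) = i) ∪
          univ.filter (fun u => (u, v) ∈ E ∧ a s(v, u) = i) := by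
      intro u hu
      rw [mem_filter, mem_nb] at hu
      rw [mem_union, mem_filter, mem_filter]
      rcases hE2 v u hu.1 with h | h
      · exact Or.inl ⟨mem_univ _, h, hu.2⟩
      · exact Or.inr ⟨mem_univ _, h, hu.2⟩
    have h1 : (univ.filter (fun u => (v, u) ∈ E ∧ a s(v, u) = i)).card ≤ s i := by
      have h2 : (univ.filter (fun u => (v, u) ∈ E ∧ a s(v, u) = i)).card ≤
          ((range (s i)).image (tok i)).card := by
        apply card_le_card_of_injOn (fun u => φ (v, u))
        · intro u hu
          rw [mem_coe, mem_filter] at hu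
          obtain ⟨_, k, hk, h3⟩ := ha s(v, u) v u rfl hu.2.1
          rw [hu.2.2] at hk h3
          rw [mem_coe, mem_image]
          exact ⟨k, mem_range.2 hk, h3.symm⟩
        · intro u hu w hw h
          rw [mem_coe, mem_filter] at hu hw
          by_contra hne
          exact (hφ (v, u) hu.2.1).2 (v, w) hw.2.1
            (fun h' => hne (Prod.ext_iff.1 h').2.symm) (Or.inl rfl) h.symm
      exact h2.trans (card_image_le.trans (by rw [card_range]))
    have h2 : (univ.filter (fun u => (u, v) ∈ E ∧ a s(v, u) = i)).card ≤ s i := by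
      have h2 : (univ.filter (fun u => (u, v) ∈ E ∧ a s(v, u) = i)).card ≤
          ((range (s i)).image (tok i)).card := by
        apply card_le_card_of_injOn (fun u => φ (u, v))
        · intro u hu
          rw [mem_coe, mem_filter] at hu
          obtain ⟨_, k, hk, h3⟩ := ha s(v, u) u v Sym2.eq_swap hu.2.1
          rw [hu.2.2] at hk h3
          rw [mem_coe, mem_image]
          exact ⟨k, mem_range.2 hk, h3.symm⟩
        · intro u hu w hw h
          rw [mem_coe, mem_filter] at hu hw
          by_contra hne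
          exact (hφ (u, v) hu.2.1).2 (w, v) hw.2.1
            (fun h' => hne (Prod.ext_iff.1 h').1.symm) (Or.inr rfl) h.symm
      exact h2.trans (card_image_le.trans (by rw [card_range]))
    have h3 := card_le_card hsub
    have h4 := card_union_le (univ.filter (fun u => (v, u) ∈ E ∧ a s(v, u) = i))
      (univ.filter (fun u => (u, v) ∈ E ∧ a s(v, u) = i))
    omega

end Pool.Agent.U122.CL
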